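import Pool.Agent.H240.GU.Def
import Pool.Agent.H240.CG.Bs0

/-!
# The data of a surface with a flat cylinder (`GU-2`)
-/

set_option autoImplicit false
set_option linter.unusedSectionVars false

open Set Filter Topology MeasureTheory
open scoped ContDiff ComplexConjugate Real

noncomputable section

namespace Pool.Agent.H618.GU

open Pool.Agent.Y262.EG Pool.Agent.Y262.EX Pool.Agent.Y262.EL Pool.Agent.Y262.QE
open Pool.Agent.Y264.QR Pool.Agent.H240.SC Pool.Agent.H240.SG Pool.Agent.H240.CG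
open Pool.Agent.H240.AL Pool.Agent.Y838.EX Pool.Agent.Y46.EX

/-- the flat cylinder in the atlas -/
theorem cylU {M : Type} [MetricSpace M] [CompactSpace M]
    [MeasurableSpace M] [BorelSpace M] {Ω : Set ℂ} {φ : ℂ → ℝ} {pr : ℂ → M}
    {L : ℝ} {N : ℕ} {T : Fin N → Set ℂ}
    (hC : Cy0 Ω φ pr L) (hAt : Atl Ω pr L N T)
    (hT : ∀ i, (mkD φ pr N T).T i = T i) :
    ∃ Φ : ℂ → M, Pool.Agent.H240.GU.IsCyl0 (mkD φ pr N T) L Φ ∧
      ∀ z ∈ Pool.Agent.Y262.QE.Strip L, Φ z = pr z := by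
  classical
  set Φ : ℂ → M := fun z => if z ∈ Pool.Agent.Y262.QE.Strip L then pr z else pr (L / 2) with hΦ
  have hΦ1 : ∀ z ∈ Pool.Agent.Y262.QE.Strip L, Φ z = pr z := by
    intro z hz
    simp only [hΦ, if_pos hz]
  refine ⟨Φ, ⟨hC.posL, ?_, ?_, ?_⟩, hΦ1⟩
  · -- per
    intro z
    have h1 : (z + 2 * π * Complex.I).re = z.re := by simp
    by_cases hz : z ∈ Pool.Agent.Y262.QE.Strip L
    · have hz' : z + 2 * π * Complex.I ∈ Pool.Agent.Y262.QE.Strip L := by
        show 0 < (z + 2 * π * Complex.I).re ∧ (z + 2 * π * Complex.I).re < L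
        rw [h1]; exact hz
      rw [hΦ1 _ hz, hΦ1 _ hz']
      exact hC.per z hz
    · have hz' : z + 2 * π * Complex.I ∉ Pool.Agent.Y262.QE.Strip L := by
        intro h
        apply hz
        have h2 : 0 < (z + 2 * π * Complex.I).re ∧ (z + 2 * π * Complex.I).re < L := h
        rw [h1] at h2
        exact h2
      simp only [hΦ, if_neg hz, if_neg hz']
  · -- inj
    intro z hz z' hz' h
    rw [hΦ1 _ hz, hΦ1 _ hz'] at h
    exact hC.inj z hz z' hz' h
  · -- chart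
    intro b hb
    obtain ⟨i, hi⟩ := hAt.rec' b hb
    refine ⟨i, by rw [hT i, hi], ?_⟩
    intro z hz
    have hz1 : z ∈ Pool.Agent.Y262.QE.Strip L := hz.1
    refine ⟨(hΦ1 z hz1).symm, ?_⟩
    have h0 : φ z = 0 := hC.zero z hz1
    show Real.exp (φ z) • ContinuousLinearMap.id ℝ ℂ = _
    rw [h0, Real.exp_zero, one_smul]

/-- `GU-2` -/
theorem stBase : Pool.Agent.H240.GU.StBase := by
  intro M P _ _ _ _ _ _ Ω φ pr q x0 R hUT hCo hφ
  obtain ⟨μ, hμ⟩ :=
    Pool.Agent.Y80.EX.areaEx Pool.Agent.Y749.EX.etale M P Ω φ pr q hUT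
  set c : ℝ := R - x0 with hc
  have hU' := ut_sh hUT c
  have hμ' := area_sh hμ c
  have hst : ∀ z ∈ Strip (2 * R), |(z - (c : ℂ)).re - x0| < R := by
    intro z hz
    have h1 := hz.1
    have h2 := hz.2
    rw [Complex.sub_re, Complex.ofReal_re, abs_lt]
    constructor
    · linarith
    · linarith
  have hCy : Cy0 (sO c Ω) (sF c φ) (sF c pr) (2 * R) := by
    refine ⟨by linarith [hCo.δp], fun z hz => hCo.sub _ (hst z hz), fun z hz => hφ _ (hst z hz),
      fun z hz => ?_, fun z hz w hw he => ?_⟩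
    · show pr (z + 2 * π * Complex.I - c) = pr (z - c)
      have h1 := hst z hz
      have h2 : |(z + 2 * π * Complex.I - (c : ℂ)).re - x0| < R := by
        have h3 : (z + 2 * π * Complex.I - (c : ℂ)).re = (z - (c : ℂ)).re := by simp
        rw [h3]
        exact h1
      symm
      refine (hCo.per _ _ h1 h2).2 ⟨1, ?_⟩
      push_cast
      ring
    · obtain ⟨n, hn⟩ := (hCo.per _ _ (hst z hz) (hst w hw)).1 he
      refine ⟨n, ?_⟩
      have : w = (w - c) + c := by ring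
      rw [this, hn]
      ring
  obtain ⟨N, T, hAt⟩ := atl0 hU' hCy
  obtain ⟨hS, hCmp, hT⟩ := Pool.Agent.Y838.EX.surf M P (sO c Ω) _ _ (sQ c q) μ (2 * R) N T
    hU' hμ' hAt
  obtain ⟨Φ, hΦ1, hΦ2⟩ := cylU hCy hAt hT
  refine ⟨μ, _, Φ, hS, hμ, ?_, hΦ1, ?_⟩
  · intro i
    obtain ⟨b, hb, hb'⟩ := hCmp i
    refine ⟨fun z => b z - c, hb.sub_const _, fun z hz => ?_⟩
    obtain ⟨b1, b2, b3, b4⟩ := hb' z hz
    have hd : deriv (fun z => b z - (c : ℂ)) z = deriv b z := deriv_sub_const (c : ℂ)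
    refine ⟨b1, b2, ?_, ?_⟩
    · rw [hd]
      exact b3
    · rw [hd]
      exact b4
  · intro z hz
    rw [hΦ2 z hz]
    show pr (z - (c : ℂ)) = _
    congr 1
    rw [hc]
    push_cast
    ring

end Pool.Agent.H618.GU
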