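import Pool.Agent.H240.GU.Def3

/-!
# Ergodicity of the geodesic flow (`GE-1`)
-/

set_option autoImplicit false
set_option linter.unusedSectionVars false

open Set Filter Topology MeasureTheory
open scoped ContDiff ComplexConjugate Real

noncomputable section

namespace Pool.Agent.H618.GU.EU

open Pool.Agent.Y262.EG Pool.Agent.Y262.EX Pool.Agent.H240.SG Pool.Agent.H240.CG
open Pool.Agent.H240.GU Pool.Agent.Y868.EX

/-! ### translations -/

theorem px_sh (φ : ℂ → ℝ) (c : ℝ) : px (sF c φ) = sF c (px φ) := by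
  funext z
  show fderiv ℝ (fun w => φ (w - c)) z 1 = fderiv ℝ φ (z - c) 1
  rw [fderiv_comp_sub]

theorem py_sh (φ : ℂ → ℝ) (c : ℝ) : py (sF c φ) = sF c (py φ) := by
  funext z
  show fderiv ℝ (fun w => φ (w - c)) z Complex.I = fderiv ℝ φ (z - c) Complex.I
  rw [fderiv_comp_sub]

theorem curv_sh (φ : ℂ → ℝ) (c : ℝ) : curv (sF c φ) = sF c (curv φ) := by
  funext z
  unfold curv
  rw [px_sh, px_sh, py_sh, py_sh]
  rfl

theorem fderiv_curv_sh (φ : ℂ → ℝ) (c : ℝ) (z : ℂ) :
    fderiv ℝ (curv (sF c φ)) z = fderiv ℝ (curv φ) (z - c) := by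
  rw [curv_sh]
  exact fderiv_comp_sub (f := curv φ) (c : ℂ)

/-- the translated flow -/
def sFl (c : ℝ) (Fl : ℝ → Y → Y) (t : ℝ) (p : Y) : Y :=
  ((Fl t (p.1 - c, p.2)).1 + c, (Fl t (p.1 - c, p.2)).2)

theorem geo_sh {Ω : Set ℂ} {φ : ℂ → ℝ} {Fl : ℝ → Y → Y} (h : IsGeo Ω φ Fl) (c : ℝ) :
    IsGeo (sO c Ω) (sF c φ) (sFl c Fl) := by
  have hm : ∀ p ∈ YO (sO c Ω), ((p.1 - c, p.2) : Y) ∈ YO Ω := fun p hp => hp
  refine ⟨fun t p hp => ?_, fun p hp => ?_, fun t p hp => ?_, ?_⟩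
  · show (Fl t (p.1 - c, p.2)).1 + c - c ∈ Ω
    rw [add_sub_cancel_right]
    exact h.maps t _ (hm p hp)
  · unfold sFl
    rw [h.zero _ (hm p hp)]
    ext1
    · show p.1 - c + c = p.1
      rw [sub_add_cancel]
    · rfl
  · have h1 := h.ode t _ (hm p hp)
    have h2 : XX (sF c φ) (sFl c Fl t p) = XX φ (Fl t (p.1 - c, p.2)) := by
      unfold XX
      rw [px_sh, py_sh]
      have e : (sFl c Fl t p).1 - (c : ℂ) = (Fl t (p.1 - c, p.2)).1 := by
        show (Fl t (p.1 - c, p.2)).1 + c - c = _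
        rw [add_sub_cancel_right]
      unfold sF
      rw [e]
      rfl
    have h3 : (fun τ => sFl c Fl τ p) = fun τ => Fl τ (p.1 - c, p.2) + (((c : ℂ), (0 : ℝ)) : Y) := by
      funext τ
      ext1
      · rfl
      · show _ = _ + (0 : ℝ)
        rw [add_zero]
        rfl
    rw [h2, h3]
    exact h1.add_const _
  · have h1 : ContDiffOn ℝ ∞ (fun a : ℝ × Y => Fl a.1 (a.2.1 - (c : ℂ), a.2.2))
        {a | a.2 ∈ YO (sO c Ω)} :=
      h.smooth.comp (f := fun a : ℝ × Y => ((a.1, (a.2.1 - (c : ℂ), a.2.2)) : ℝ × Y))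
        (by fun_prop) fun a ha => ha
    exact (h1.fst.add contDiffOn_const).prodMk h1.snd

theorem liou_sh {P : Type} [MeasurableSpace P] {Ω : Set ℂ} {φ : ℂ → ℝ} {q : Y → P} {m : Measure P}
    (h : IsLiou Ω φ q m) (c : ℝ) : IsLiou (sO c Ω) (sF c φ) (sQ c q) m := by
  intro B hB hBs hi
  have hm : Measurable fun p : Y => ((p.1 + (c : ℂ), p.2) : Y) := by fun_prop
  have hfe : (fun p : Y => ((p.1 + (c : ℂ), p.2) : Y)) = fun p : Y => p + (((c : ℂ), (0 : ℝ)) : Y) := by
    funext p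
    ext1
    · rfl
    · show p.2 = p.2 + 0
      rw [add_zero]
  rw [imgQ, h _ (hm hB) (fun p hp => by
    have h2 : p.1 + c - c ∈ Ω := hBs hp
    rwa [add_sub_cancel_right] at h2) (fun p hp p' hp' he => by
    have h2 : sQ c q (p.1 + c, p.2) = sQ c q (p'.1 + c, p'.2) := by
      show q (p.1 + c - c, p.2) = q (p'.1 + c - c, p'.2)
      rw [add_sub_cancel_right, add_sub_cancel_right]
      exact he
    have h3 := hi hp hp' h2
    have h4 := congrArg Prod.fst h3
    have h5 := congrArg Prod.snd h3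
    ext1
    · exact add_right_cancel h4
    · exact h5)]
  have hmp : MeasurePreserving (fun p : Y => ((p.1 + (c : ℂ), p.2) : Y)) volume volume := by
    rw [hfe]
    exact measurePreserving_add_right volume (((c : ℂ), (0 : ℝ)) : Y)
  have hme : MeasurableEmbedding (fun p : Y => ((p.1 + (c : ℂ), p.2) : Y)) := by
    rw [hfe]
    exact (Homeomorph.addRight (((c : ℂ), (0 : ℝ)) : Y)).measurableEmbedding
  have h3 := hmp.setLIntegral_comp_preimage_emb hme
    (fun p => ENNReal.ofReal (Real.exp (2 * sF c φ p.1))) B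
  rw [← h3]
  refine lintegral_congr fun p => ?_
  show ENNReal.ofReal (Real.exp (2 * φ p.1)) = ENNReal.ofReal (Real.exp (2 * φ (p.1 + c - c)))
  rw [add_sub_cancel_right]

theorem erg_sh {P : Type} [MeasurableSpace P] {Ω : Set ℂ} {q : Y → P} {m : Measure P}
    {Fl : ℝ → Y → Y} {c : ℝ} (h : Erg (sO c Ω) (sQ c q) m (sFl c Fl)) : Erg Ω q m Fl := by
  intro A hA hinv
  refine h A hA fun t p hp => ?_
  have h1 := hinv t (p.1 - c, p.2) hp
  have e : sQ c q (sFl c Fl t p) = q (Fl t (p.1 - c, p.2)) := by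
    show q ((Fl t (p.1 - c, p.2)).1 + c - c, (Fl t (p.1 - c, p.2)).2) = _
    rw [add_sub_cancel_right]
  rw [e]
  exact h1

/-! ### compactness -/

/-- open sets with a parameter which cover the surface together with one open set -/
theorem cov {M P : Type} [MetricSpace M] [CompactSpace M] [MetricSpace P] [CompactSpace P]
    {Ω : Set ℂ} {φ : ℂ → ℝ} {pr : ℂ → M} {q : Y → P} (hU : IsUT Ω φ pr q) {F : ℂ → ℝ}
    (hF : ContinuousOn F Ω) {S : Set ℂ} (hS : IsOpen S) (hSO : S ⊆ Ω) (a : ℕ → ℝ)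
    (ha : Monotone a) (h : ∀ z ∈ Ω, (∃ n, F z < a n) ∨ ∃ w ∈ S, pr w = pr z) :
    ∃ n, ∀ z ∈ Ω, (∃ w ∈ Ω, pr w = pr z ∧ F w < a n) ∨ ∃ w ∈ S, pr w = pr z := by
  let W : ℕ → Set M := fun n => pr '' (Ω ∩ F ⁻¹' Iio (a n)) ∪ pr '' S
  have hWo : ∀ n, IsOpen (W n) := fun n =>
    (hU.opnp _ (hF.isOpen_inter_preimage hU.opn isOpen_Iio) inter_subset_left).union
      (hU.opnp _ hS hSO)
  have hWm : Monotone W := by
    intro n n' hn
    refine union_subset_union_left _ (image_mono (inter_subset_inter_right _ ?_))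
    intro z hz
    exact lt_of_lt_of_le hz (ha hn)
  have hcov : (univ : Set M) ⊆ ⋃ n, W n := by
    intro x _
    obtain ⟨z, hz, rfl⟩ : x ∈ pr '' Ω := by rw [hU.surjp]; trivial
    rcases h z hz with ⟨n, hn⟩ | ⟨w, hw, hwz⟩
    · exact mem_iUnion.2 ⟨n, Or.inl ⟨z, ⟨hz, hn⟩, rfl⟩⟩
    · exact mem_iUnion.2 ⟨0, Or.inr ⟨w, hw, hwz⟩⟩
  obtain ⟨n, hn⟩ := isCompact_univ.elim_directed_cover W hWo hcov hWm.directed_le
  refine ⟨n, fun z hz => ?_⟩
  rcases hn (mem_univ (pr z)) with ⟨w, ⟨hw1, hw2⟩, hw3⟩ | ⟨w, hw, hwz⟩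
  · exact Or.inl ⟨w, hw1, hw3, hw2⟩
  · exact Or.inr ⟨w, hw, hwz⟩

/-- `GE-1` -/
theorem stErgU : StErgU := by
  intro M P _ _ _ _ _ _ Ω φ pr q m Fl x0 r C G hUT hLi hGe hCo hconn hG hφ hG0 hG1 hneg hzero hder
  have hr := hCo.δp
  set c : ℝ := r / 2 - x0 with hc
  have hSo : IsOpen {z : ℂ | |z.re - x0| < r / 4} :=
    isOpen_lt (by fun_prop) continuous_const
  have hSO : {z : ℂ | |z.re - x0| < r / 4} ⊆ Ω := fun z hz => hCo.sub z (by
    have : |z.re - x0| < r / 4 := hz
    linarith)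
  have hInv := tInv M P Ω φ pr q hUT
  have hcs : ContDiffOn ℝ ∞ (curv φ) Ω := (tFrame Ω φ hUT.opn hUT.smooth).2.2.1
  -- the bound of the curvature
  obtain ⟨κ, hκ, hlow⟩ : ∃ κ : ℝ, 0 < κ ∧ ∀ z ∈ Ω, -κ < curv φ z →
      ∃ w : ℂ, |w.re - x0| < r / 4 ∧ pr w = pr z := by
    obtain ⟨n, hn⟩ := cov hUT hcs.continuousOn hSo hSO (fun n => -(1 / ((n : ℝ) + 1))) (by
        intro n n' hn
        have h1 : (n : ℝ) ≤ n' := by exact_mod_cast hn
        have h2 : 1 / ((n' : ℝ) + 1) ≤ 1 / ((n : ℝ) + 1) :=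
          one_div_le_one_div_of_le (by positivity) (by linarith)
        show -(1 / ((n : ℝ) + 1)) ≤ -(1 / ((n' : ℝ) + 1))
        linarith) (fun z hz => by
        rcases (hneg z hz).lt_or_eq with h1 | h1
        · obtain ⟨n, hn⟩ := exists_nat_one_div_lt (show 0 < -curv φ z by linarith)
          exact Or.inl ⟨n, by
            show curv φ z < -(1 / ((n : ℝ) + 1))
            linarith⟩
        · obtain ⟨w, hw, hwz⟩ := hzero z hz h1
          refine Or.inr ⟨w, ?_, hwz⟩
          have hw' : w.re = x0 := hw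
          show |w.re - x0| < r / 4
          rw [hw', sub_self, abs_zero]
          linarith)
    refine ⟨1 / ((n : ℝ) + 1), by positivity, fun z hz hlt => ?_⟩
    rcases hn z hz with ⟨w, hw, hwz, hwl⟩ | ⟨w, hw, hwz⟩
    · exfalso
      have h1 := (hInv w hw z hz hwz).1
      have h2 : curv φ w < -(1 / ((n : ℝ) + 1)) := hwl
      linarith
    · exact ⟨w, hw, hwz⟩
  -- the bound of the derivative
  have hcd : ContinuousOn (fun z => Real.exp (-φ z) * ‖fderiv ℝ (curv φ) z‖) Ω :=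
    (Real.continuous_exp.comp_continuousOn hUT.smooth.continuousOn.neg).mul
      (hcs.continuousOn_fderiv_of_isOpen hUT.opn (by simp)).norm
  obtain ⟨B1, hB1⟩ : ∃ B1 : ℝ, ∀ z ∈ Ω, Real.exp (-φ z) * ‖fderiv ℝ (curv φ) z‖ ≤ B1 := by
    obtain ⟨n, hn⟩ := cov hUT hcd isOpen_empty (empty_subset _) (fun n => (n : ℝ))
      (fun n n' hn => by
        show (n : ℝ) ≤ n'
        exact_mod_cast hn) (fun z hz => Or.inl (exists_nat_gt _))
    refine ⟨n, fun z hz => ?_⟩
    rcases hn z hz with ⟨w, hw, hwz, hwl⟩ | ⟨w, hw, -⟩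
    · rw [← (hInv w hw z hz hwz).2]
      exact le_of_lt hwl
    · exact absurd hw (notMem_empty _)
  -- the collar
  have hGd : ∀ t, DifferentiableAt ℝ G t := fun t => (hG.differentiable (by simp)) t
  have hG1s : ContDiff ℝ ∞ (deriv G) := (contDiff_infty_iff_deriv.1 hG).2
  have hG2s : ContDiff ℝ ∞ (deriv (deriv G)) := (contDiff_infty_iff_deriv.1 hG1s).2
  have hSr : IsOpen {z : ℂ | |z.re - x0| < r} := isOpen_lt (by fun_prop) continuous_const
  have hsh : ∀ x : ℝ, deriv (fun y => G (y - x0)) x = deriv G (x - x0) := fun x =>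
    deriv_comp_sub_const G x0 x
  have hsh1 : deriv (fun y => G (y - x0)) = fun y => deriv G (y - x0) := funext hsh
  have hcurv : ∀ z : ℂ, |z.re - x0| < r → curv φ z =
      -(Real.exp (-2 * G (z.re - x0)) * deriv (deriv G) (z.re - x0)) := by
    intro z hz
    have h1 := Pool.Agent.Y993.EX.curv_re (φ := φ) (h := fun y => G (y - x0)) (z := z) (by
        filter_upwards [hSr.mem_nhds hz] with w hw
        exact hφ w hw) (Eventually.of_forall fun x => by
          have : DifferentiableAt ℝ (fun y : ℝ => y - x0) x := by fun_prop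
          exact (hGd (x - x0)).comp x this) (by
          rw [hsh1]
          have : DifferentiableAt ℝ (fun y : ℝ => y - x0) z.re := by fun_prop
          exact ((hG1s.differentiable (by simp)) (z.re - x0)).comp z.re this)
    rw [h1, hsh1, deriv_comp_sub_const (deriv G) x0 z.re]
  have hcvx : ∀ t : ℝ, |t| < r → 0 ≤ deriv (deriv G) t := by
    intro t ht
    have h0 : |((x0 + t : ℝ) : ℂ).re - x0| < r := by
      rw [Complex.ofReal_re, add_sub_cancel_left]
      exact ht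
    have h1 := hneg _ (hCo.sub _ h0)
    rw [hcurv _ h0, Complex.ofReal_re, add_sub_cancel_left] at h1
    have h2 := Real.exp_pos (-2 * G t)
    by_contra hcon
    push Not at hcon
    have := mul_neg_of_pos_of_neg h2 hcon
    linarith
  have hder' : ∀ t : ℝ, |t| < r → |deriv (deriv (deriv G)) t| ≤
      C * (deriv (deriv G) t) ^ (39 / 40 : ℝ) := by
    intro t ht
    have h1 := hder t ht
    have e2 : iteratedDeriv 2 G = deriv (deriv G) := by
      rw [iteratedDeriv_succ, iteratedDeriv_one]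
    have e3 : iteratedDeriv 3 G = deriv (deriv (deriv G)) := by
      rw [iteratedDeriv_succ, e2]
    rwa [e2, e3] at h1
  obtain ⟨C1, hC1, hcol⟩ : ∃ C1 : ℝ, 0 ≤ C1 ∧ ∀ z : ℂ, |z.re - x0| < r / 4 →
      Real.exp (-φ z) * ‖fderiv ℝ (curv φ) z‖ ≤ C1 * |curv φ z| ^ (39 / 40 : ℝ) := by
    have hcpt : IsCompact (Icc (-(r / 4)) (r / 4)) := isCompact_Icc
    obtain ⟨B0, hB0⟩ := hcpt.exists_bound_of_continuousOn hG.continuous.continuousOn
    obtain ⟨B1, hB1⟩ := hcpt.exists_bound_of_continuousOn hG1s.continuous.continuousOn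
    obtain ⟨B2, hB2⟩ := hcpt.exists_bound_of_continuousOn hG2s.continuous.continuousOn
    set B : ℝ := max 1 (max B0 (max B1 B2)) with hB
    have hb1 : 1 ≤ B := le_max_left _ _
    have hb0 : B0 ≤ B := (le_max_left _ _).trans (le_max_right _ _)
    have hb1' : B1 ≤ B := (le_max_left _ _).trans ((le_max_right _ _).trans (le_max_right _ _))
    have hb2 : B2 ≤ B := (le_max_right _ _).trans ((le_max_right _ _).trans (le_max_right _ _))
    refine ⟨Real.exp (3 * B) * (2 * B * B ^ (1 / 40 : ℝ) + |C|) *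
      (Real.exp (-2 * B) ^ (39 / 40 : ℝ))⁻¹, by positivity, ?_⟩
    intro z hz
    have hzr : |z.re - x0| < r := by linarith
    have hzI : z.re - x0 ∈ Icc (-(r / 4)) (r / 4) := by
      have := abs_lt.1 hz
      exact ⟨this.1.le, this.2.le⟩
    have e0 : HasDerivAt (fun y : ℝ => y - x0) 1 z.re := (hasDerivAt_id z.re).sub_const x0
    have e1 : HasDerivAt (fun y => G (y - x0)) (deriv G (z.re - x0)) z.re := by
      have h1 := (hGd (z.re - x0)).hasDerivAt.comp z.re e0
      rwa [mul_one] at h1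
    have e3 : HasDerivAt (fun y => deriv (deriv G) (y - x0)) (deriv (deriv (deriv G)) (z.re - x0))
        z.re := by
      have h1 := ((hG2s.differentiable (by simp)) (z.re - x0)).hasDerivAt.comp z.re e0
      rwa [mul_one] at h1
    have hK : HasDerivAt (fun x => -(Real.exp (-2 * G (x - x0)) * deriv (deriv G) (x - x0)))
        (Real.exp (-2 * G (z.re - x0)) * (2 * deriv G (z.re - x0) * deriv (deriv G) (z.re - x0) -
          deriv (deriv (deriv G)) (z.re - x0))) z.re := by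
      have h1 := (((e1.const_mul (-2)).exp).mul e3).neg
      refine h1.congr_deriv ?_
      ring
    have hev : curv φ =ᶠ[𝓝 z] fun w =>
        (fun x => -(Real.exp (-2 * G (x - x0)) * deriv (deriv G) (x - x0))) w.re := by
      filter_upwards [hSr.mem_nhds hzr] with w hw
      exact hcurv w hw
    rw [fderiv_re _ _ z _ hK hev, hcurv z hzr, hφ z hzr]
    have k0 := (hB0 _ hzI).trans hb0
    have k1 := (hB1 _ hzI).trans hb1'
    have k2 := (hB2 _ hzI).trans hb2
    rw [Real.norm_eq_abs] at k0 k1 k2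
    exact est _ _ _ _ B C hb1 k0 k1 (hcvx _ hzr) ((le_abs_self _).trans k2) (hder' _ hzr)
  have hall : ∃ C' : ℝ, ∀ z ∈ Ω, Real.exp (-φ z) * ‖fderiv ℝ (curv φ) z‖ ≤
      C' * |curv φ z| ^ (39 / 40 : ℝ) := by
    refine ⟨C1 + |B1| * (κ ^ (39 / 40 : ℝ))⁻¹, fun z hz => ?_⟩
    have hκ' : 0 < κ ^ (39 / 40 : ℝ) := Real.rpow_pos_of_pos hκ _
    have h0 : 0 ≤ |curv φ z| ^ (39 / 40 : ℝ) := Real.rpow_nonneg (abs_nonneg _) _
    by_cases hlt : -κ < curv φ z
    · obtain ⟨w, hw, hwz⟩ := hlow z hz hlt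
      have hwO : w ∈ Ω := hSO hw
      have h1 := hInv w hwO z hz hwz
      rw [← h1.2, ← h1.1]
      refine (hcol w hw).trans ?_
      rw [h1.1]
      refine mul_le_mul_of_nonneg_right ?_ h0
      have : 0 ≤ |B1| * (κ ^ (39 / 40 : ℝ))⁻¹ := by positivity
      linarith
    · push Not at hlt
      have h1 : κ ≤ |curv φ z| := by
        rw [abs_of_nonpos (hneg z hz)]
        linarith
      have h2 : κ ^ (39 / 40 : ℝ) ≤ |curv φ z| ^ (39 / 40 : ℝ) :=
        Real.rpow_le_rpow hκ.le h1 (by norm_num)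
      calc Real.exp (-φ z) * ‖fderiv ℝ (curv φ) z‖ ≤ B1 := hB1 z hz
        _ ≤ |B1| := le_abs_self _
        _ = |B1| * (κ ^ (39 / 40 : ℝ))⁻¹ * κ ^ (39 / 40 : ℝ) := by
          rw [mul_assoc, inv_mul_cancel₀ hκ'.ne', mul_one]
        _ ≤ |B1| * (κ ^ (39 / 40 : ℝ))⁻¹ * |curv φ z| ^ (39 / 40 : ℝ) :=
          mul_le_mul_of_nonneg_left h2 (by positivity)
        _ ≤ (C1 + |B1| * (κ ^ (39 / 40 : ℝ))⁻¹) * |curv φ z| ^ (39 / 40 : ℝ) :=
          mul_le_mul_of_nonneg_right (by linarith) h0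
  obtain ⟨C', hC'⟩ := hall
  -- the class
  have hre : ∀ z : ℂ, (z - (c : ℂ)).re - x0 = z.re - r / 2 := by
    intro z
    rw [Complex.sub_re, Complex.ofReal_re, hc]
    ring
  have hst : ∀ z ∈ Stp r (r / 2), |(z - (c : ℂ)).re - x0| < r := by
    intro z hz
    rw [hre, abs_lt]
    exact ⟨by linarith [hz.1], by linarith [hz.2]⟩
  have hcls : Cls2 (sO c Ω) (sF c φ) (sF c pr) r (r / 4) (r / 2) κ C' (r / 2)
      (fun x => G (x - r / 2)) := by
    refine ⟨hr, by linarith, by linarith, hκ, by linarith, by linarith, fun z hz =>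
      hCo.sub _ (hst z hz), fun z hz => ?_, ?_, ?_, fun z hz => ?_, fun z hz w hw he => ?_,
      fun z hz => ?_, fun z hz hlt => ?_, fun z hz h0 => ?_, fun z hz => ?_, hconn⟩
    · show φ (z - c) = G (z.re - r / 2)
      rw [hφ _ (hst z hz), hre]
    · show G (r / 2 - r / 2) = 0
      rw [sub_self, hG0]
    · have e0 : HasDerivAt (fun y : ℝ => y - r / 2) 1 (r / 2) := (hasDerivAt_id _).sub_const _
      have h1 : HasDerivAt (fun y => G (y - r / 2)) (deriv G (r / 2 - r / 2) * 1) (r / 2) :=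
        HasDerivAt.comp (h₂ := G) (h := fun y : ℝ => y - r / 2) (r / 2)
          (hGd (r / 2 - r / 2)).hasDerivAt e0
      rw [sub_self, hG1, zero_mul] at h1
      exact h1
    · show pr (z + 2 * Real.pi * Complex.I - c) = pr (z - c)
      have h1 := hst z hz
      have h2 : |(z + 2 * Real.pi * Complex.I - (c : ℂ)).re - x0| < r := by
        have h3 : (z + 2 * Real.pi * Complex.I - (c : ℂ)).re = (z - (c : ℂ)).re := by simp
        rw [h3]
        exact h1
      symm
      refine (hCo.per _ _ h1 h2).2 ⟨1, ?_⟩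
      push_cast
      ring
    · obtain ⟨n, hn⟩ := (hCo.per _ _ (hst z hz) (hst w hw)).1 he
      refine ⟨n, ?_⟩
      have : w = (w - c) + c := by ring
      rw [this, hn]
      ring
    · rw [curv_sh]
      exact hneg _ hz
    · rw [curv_sh] at hlt
      obtain ⟨w, hw, hwz⟩ := hlow (z - c) hz hlt
      refine ⟨w + c, ?_, ?_⟩
      · have h1 := abs_lt.1 hw
        have h2 : (w + (c : ℂ)).re = w.re + c := by simp
        constructor
        · rw [h2, hc]
          linarith [h1.1]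
        · rw [h2, hc]
          linarith [h1.2]
      · show pr (w + c - c) = pr (z - c)
        rw [add_sub_cancel_right, hwz]
    · rw [curv_sh] at h0
      obtain ⟨w, hw, hwz⟩ := hzero (z - c) hz h0
      have hw' : w.re = x0 := hw
      refine ⟨w + c, ?_, ?_⟩
      · rw [Complex.add_re, Complex.ofReal_re, hw', hc]
        ring
      · show pr (w + c - c) = pr (z - c)
        rw [add_sub_cancel_right, hwz]
    · rw [fderiv_curv_sh, curv_sh]
      exact hC' _ hz
  exact erg_sh (erg2 M P _ _ _ _ m _ r (r / 4) (r / 2) κ C' (r / 2) _ (ut_sh hUT c)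
    (liou_sh hLi c) (geo_sh hGe c) hcls)

end Pool.Agent.H618.GU.EU
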